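import Pool.Agent.V11325.Parrondo

/-!
# The mean profit in cooperative Parrondo games is not monotone (MP_313e16_pr)

With four players the mean profit is `-117/2087` for `p = (19/20, 1/20, 1/20, 1/20)` and the
smaller number `-11715/174013` for `p' = (19/20, 1/20, 1/20, 1/5)`.
-/

namespace Pool.Agent.Results.MP_313e16_pr.NotMonotone

open Pool.Agent.V11325.Parrondo

/-- number of the configuration -/
def num (x : Fin 4 → Bool) : ℕ :=
  (x 0).toNat + 2 * (x 1).toNat + 4 * (x 2).toNat + 8 * (x 3).toNat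

/-- first stationary distribution -/
def w1 (x : Fin 4 → Bool) : ℚ :=
  ([76, 1444, 1444, 361, 1444, 16606, 361, 304, 1444, 361, 16606, 304, 361, 304, 304, 16] :
    List ℚ).getD (num x) 0 / 41740

/-- first parameter vector -/
def p1 : Fin 4 → ℚ := ![19 / 20, 1 / 20, 1 / 20, 1 / 20]

/-- second stationary distribution -/
def w2 (x : Fin 4 → Bool) : ℚ :=
  ([524, 9956, 9956, 4180, 9956, 50236, 4180, 3876, 9956, 4180, 50236, 3876, 4180, 3876, 3876,
    969] : List ℚ).getD (num x) 0 / 174013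

/-- second parameter vector -/
def p2 : Fin 4 → ℚ := ![19 / 20, 1 / 20, 1 / 20, 1 / 5]

theorem stat1 : IsStat (fun j => (p1 j : ℝ)) (fun x => (w1 x : ℝ)) :=
  stat_of_cert (by decide +kernel) (by decide +kernel) (by decide +kernel)

theorem stat2 : IsStat (fun j => (p2 j : ℝ)) (fun x => (w2 x : ℝ)) :=
  stat_of_cert (by decide +kernel) (by decide +kernel) (by decide +kernel)

theorem profit1 : profit p1 w1 = -117 / 2087 := by decide +kernel

theorem profit2 : profit p2 w2 = -11715 / 174013 := by decide +kernel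

theorem pos1 : ∀ j, 0 < (p1 j : ℝ) ∧ (p1 j : ℝ) < 1 := by
  have h : ∀ j, 0 < p1 j ∧ p1 j < 1 := by decide +kernel
  intro j
  exact ⟨by exact_mod_cast (h j).1, by exact_mod_cast (h j).2⟩

theorem pos2 : ∀ j, 0 < (p2 j : ℝ) ∧ (p2 j : ℝ) < 1 := by
  have h : ∀ j, 0 < p2 j ∧ p2 j < 1 := by decide +kernel
  intro j
  exact ⟨by exact_mod_cast (h j).1, by exact_mod_cast (h j).2⟩

/-- **The mean profit is not monotone in `p_3`.** For `N = 4` there are two parameter vectors with
all entries in `(0, 1)`, both with an ergodic chain, which agree except that `p 3 < p' 3`, and such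
that the mean profit of `p'` is strictly smaller than that of `p`. -/
theorem result : ∃ p p' : Fin 4 → ℝ,
    (∀ j, 0 < p j ∧ p j < 1) ∧ (∀ j, 0 < p' j ∧ p' j < 1) ∧
    (∀ j, j ≠ 3 → p j = p' j) ∧ p 3 < p' 3 ∧ Ergodic 4 p ∧ Ergodic 4 p' ∧
    ∀ π π' : (Fin 4 → Bool) → ℝ, IsStat p π → IsStat p' π' → profit p' π' < profit p π := by
  refine ⟨fun j => (p1 j : ℝ), fun j => (p2 j : ℝ), pos1, pos2, ?_, ?_, ?_, ?_, ?_⟩
  · intro j hj
    have h : ∀ j, j ≠ 3 → p1 j = p2 j := by decide +kernel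
    show (p1 j : ℝ) = (p2 j : ℝ)
    rw [h j hj]
  · have h : p1 3 < p2 3 := by decide +kernel
    show (p1 3 : ℝ) < (p2 3 : ℝ)
    exact_mod_cast h
  · exact ⟨_, stat1, ergodic_of_stat pos1 stat1⟩
  · exact ⟨_, stat2, ergodic_of_stat pos2 stat2⟩
  · intro π π' h h'
    rw [(ergodic_of_stat pos1 stat1).1 π h, (ergodic_of_stat pos2 stat2).1 π' h', ← profit_cast,
      ← profit_cast, profit1, profit2]
    norm_num

end Pool.Agent.Results.MP_313e16_pr.NotMonotone
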